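import Mathlib
import Pool.Agent.H932R7.Final2

set_option autoImplicit false

/-!
# Effective divisors with arbitrary bounded multiplicities: `h¹ = 0` from degree `m ^ (3 / 2)` on

Let `P i`, `i < s`, be points of the plane over a field `k` of characteristic zero whose `2 s`
coordinates are algebraically independent over `ℚ`, let `w i ≤ m` be arbitrary and
`A = ∑ (w i + 1).choose 2`. Let `1 ≤ l ≤ m` be such that for every point of multiplicity `w i > l`
the points of smaller multiplicities (`≥ 2`, or `≥ 1` if `l = 1`) satisfy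
`∑ w j (w j + 1) ≥ 2 w i (w i + 1) (w i + 2)` (no condition if `l = m`). Let
`m (m + 1) (m + 6 √m + 10) ≤ max ((d + 1) (d + 2), A)`, and let
`|(d + 2).choose 2 - A| ≥ 2 (l + 1).choose 3` (where simple points need not be counted in `A` on the
side of independence), or let no multiplicity lie strictly between `1` and `l`. If there is a
nonzero form of degree `d` with multiplicity at least `w i` at `P i` for all `i`, then the
conditions are independent, so that the divisor class `d H - ∑ w i E i` has `h¹ = 0`.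
-/

namespace Pool.Agent.Results.MP_0dccba_ag.BoundedMultiplicities

/-- The homogeneous ideal of the fat points with support `(P i 0 : P i 1 : 1)` and multiplicity
`w i`: the intersection of the `w i`-th powers of the ideals of the points. -/
noncomputable def fat {k : Type} [Field k] {s : ℕ} (P : Fin s → Fin 2 → k) (w : Fin s → ℕ) :
    Ideal (MvPolynomial (Fin 3) k) :=
  ⨅ i : Fin s,
    (Ideal.span
      ({MvPolynomial.X 0 - MvPolynomial.C (P i 0) * MvPolynomial.X 2,
        MvPolynomial.X 1 - MvPolynomial.C (P i 1) * MvPolynomial.X 2} :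
        Set (MvPolynomial (Fin 3) k))) ^ (w i)

theorem result (k : Type) [Field k] [CharZero k] (s m l : ℕ) (hl : 0 < l) (hlm : l ≤ m)
    (w : Fin s → ℕ) (hw : ∀ i, w i ≤ m)
    (hfreq : ∀ i, l < w i → 2 * (w i * (w i + 1) * (w i + 2)) ≤
      ∑ j ∈ Finset.univ.filter (fun j => min 2 l ≤ w j ∧ w j < w i), w j * (w j + 1))
    (P : Fin s → Fin 2 → k)
    (hP : AlgebraicIndependent ℚ (fun ij : Fin s × Fin 2 => P ij.1 ij.2)) (d : ℕ)
    (h1 : (m : ℝ) * (m + 1) * (m + 6 * Real.sqrt m + 10) ≤
      ((max ((d + 1) * (d + 2)) (∑ i, (w i + 1).choose 2) : ℕ) : ℝ))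
    (h2 : (d + 2).choose 2 + 2 * (l + 1).choose 3 ≤ ∑ i, (w i + 1).choose 2 ∨
      ∑ i ∈ Finset.univ.filter (fun i => w i ≠ 1), (w i + 1).choose 2
        + 2 * (l + 1).choose 3 ≤ (d + 2).choose 2 ∨
      ∀ i, w i ≤ 1 ∨ l ≤ w i)
    (G : MvPolynomial (Fin 3) k) (hG : G ≠ 0) (hGd : G.IsHomogeneous d) (hGm : G ∈ fat P w) :
    Module.finrank k
      ↥(MvPolynomial.homogeneousSubmodule (Fin 3) k d ⊓ Submodule.restrictScalars k (fat P w))
      + ∑ i, Nat.choose (w i + 1) 2 = Nat.choose (d + 2) 2 := by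
  obtain ⟨F, hF, hF'⟩ := H932R7.bounded2 k hl hlm hw hfreq
  have h3 := hF' P (fun h0 => hF (hP.eq_zero_of_aeval_eq_zero F h0)) d ⟨h1, h2⟩
  unfold fat at hGm ⊢
  rw [Ideal.mem_iInf] at hGm
  exact h3.eff hG hGd hGm

end Pool.Agent.Results.MP_0dccba_ag.BoundedMultiplicities
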