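import Mathlib
import Pool.Agent.H932R3.NearFinal

set_option autoImplicit false

/-!
# Effective divisors with nearly equal multiplicities at generic points have `h¹ = 0`

Let `P i`, `i < s`, be `s > 9` points of the plane over a field `k` of characteristic zero whose
`2 s` coordinates are algebraically independent over `ℚ`, and let `w i ∈ {m, m + 1}` with
`m + 1 ≤ s - 6 √s + 11` (or the slightly weaker numerical condition below). If there is a
nonzero form of degree `d` with multiplicity at least `w i` at `P i` for all `i`, then the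
conditions are independent, so that the divisor class `d H - ∑ w i E i` has `h¹ = 0`.
-/

namespace Pool.Agent.Results.MP_0dccba_ag.NearUniformPrime

theorem result (k : Type) [Field k] [CharZero k] (s : ℕ) (hs : 9 < s) (m : ℕ) (hm : 0 < m)
    (w : Fin s → ℕ) (hw : ∀ i, w i = m ∨ w i = m + 1)
    (h : ((m + 1 : ℕ) : ℝ) ≤ s - 6 * Real.sqrt s + 11 ∨
      ∃ δ κ : ℕ, 2 ≤ δ ∧ s = δ ^ 2 + 2 * κ ∧
        (κ = 0 ∨ ∑ i, w i * (w i + 1) < δ ^ 2 * (δ ^ 2 + 3) * (δ ^ 2 + 4)))
    (P : Fin s → Fin 2 → k)
    (hP : AlgebraicIndependent ℚ (fun ij : Fin s × Fin 2 => P ij.1 ij.2))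
    (d : ℕ) (G : MvPolynomial (Fin 3) k) (hG : G ≠ 0) (hGd : G.IsHomogeneous d)
    (hGm : ∀ i, G ∈ (Ideal.span
      ({MvPolynomial.X 0 - MvPolynomial.C (P i 0) * MvPolynomial.X 2,
        MvPolynomial.X 1 - MvPolynomial.C (P i 1) * MvPolynomial.X 2} :
        Set (MvPolynomial (Fin 3) k))) ^ (w i)) :
    Module.finrank k
      ↥(MvPolynomial.homogeneousSubmodule (Fin 3) k d ⊓
        Submodule.restrictScalars k
          (⨅ i : Fin s,
            (Ideal.span
              ({MvPolynomial.X 0 - MvPolynomial.C (P i 0) * MvPolynomial.X 2,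
                MvPolynomial.X 1 - MvPolynomial.C (P i 1) * MvPolynomial.X 2} :
                Set (MvPolynomial (Fin 3) k))) ^ (w i)))
      + ∑ i, Nat.choose (w i + 1) 2 = Nat.choose (d + 2) 2 := by
  obtain ⟨F, hF, hF'⟩ := H932R3.near_points (L := k) (by omega) hm hw (H932R3.near_cond hs hw h)
  have h1 := hF' P (fun h0 => hF (hP.eq_zero_of_aeval_eq_zero F h0)) d
  have h2 : 0 < Module.finrank k
      ↥(MvPolynomial.homogeneousSubmodule (Fin 3) k d ⊓
        Submodule.restrictScalars k
          (⨅ i : Fin s,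
            (Ideal.span
              ({MvPolynomial.X 0 - MvPolynomial.C (P i 0) * MvPolynomial.X 2,
                MvPolynomial.X 1 - MvPolynomial.C (P i 1) * MvPolynomial.X 2} :
                Set (MvPolynomial (Fin 3) k))) ^ (w i))) := by
    have h3 : Module.Finite k ↥(MvPolynomial.homogeneousSubmodule (Fin 3) k d) :=
      Module.Finite.iff_fg.2 (MvPolynomial.homogeneousSubmodule_fg _ _ d)
    have h4 := Submodule.finiteDimensional_of_le
      (S₁ := MvPolynomial.homogeneousSubmodule (Fin 3) k d ⊓
        Submodule.restrictScalars k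
          (⨅ i : Fin s,
            (Ideal.span
              ({MvPolynomial.X 0 - MvPolynomial.C (P i 0) * MvPolynomial.X 2,
                MvPolynomial.X 1 - MvPolynomial.C (P i 1) * MvPolynomial.X 2} :
                Set (MvPolynomial (Fin 3) k))) ^ (w i)))
      (S₂ := MvPolynomial.homogeneousSubmodule (Fin 3) k d) inf_le_left
    rw [Module.finrank_pos_iff]
    refine ⟨⟨⟨G, Submodule.mem_inf.2 ⟨hGd, ?_⟩⟩, 0, fun h5 => hG ?_⟩⟩
    · rw [Submodule.restrictScalars_mem, Ideal.mem_iInf]
      exact hGm
    · exact congrArg Subtype.val h5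
  rw [h1] at h2 ⊢
  omega

end Pool.Agent.Results.MP_0dccba_ag.NearUniformPrime
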